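import Pool.Agent.H667.FL.Cls

set_option autoImplicit false

/-!
The perfect-set form of the Vaught conjecture for first-order theories axiomatised in the forward
fragment with equality (in particular, in the fluted fragment with equality), in all countable
relational languages.
-/

namespace Pool.Agent.Results.MP_5df2c5_lc.ForwardFragment

open FirstOrder Set Pool.Agent.H834V Pool.Agent.H667.FL

/-- The formulas of the forward fragment with equality, among the first-order formulas with free
variables `x₀, …, xₙ₋₁`: the atoms are `R(xₘ, xₘ₊₁, …, xₘ₊ₖ₋₁)`, whose arguments are consecutive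
variables in increasing order, and `xₘ = xₘ₊₁`; the fragment is closed under the Boolean operations
and under the quantification of the last variable `xₙ₋₁`. (The fluted fragment allows only the
atoms whose arguments are the last variables, that is, `r = 0`.) -/
inductive IsForward {L : FirstOrder.Language.{0, 0}} :
    ∀ {n : ℕ}, L.BoundedFormula Empty n → Prop
  | falsum {n : ℕ} : IsForward (n := n) FirstOrder.Language.BoundedFormula.falsum
  | equal (m r : ℕ) : IsForward (n := m + 2 + r) (FirstOrder.Language.BoundedFormula.equal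
      (FirstOrder.Language.Term.var (Sum.inr (Fin.castAdd r (Fin.natAdd m (0 : Fin 2)))))
      (FirstOrder.Language.Term.var (Sum.inr (Fin.castAdd r (Fin.natAdd m (1 : Fin 2))))))
  | rel (m : ℕ) {k : ℕ} (R : L.Relations k) (r : ℕ) : IsForward (n := m + k + r)
      (FirstOrder.Language.BoundedFormula.rel R
        (fun i => FirstOrder.Language.Term.var (Sum.inr (Fin.castAdd r (Fin.natAdd m i)))))
  | imp {n : ℕ} {φ ψ : L.BoundedFormula Empty n} (hφ : IsForward φ) (hψ : IsForward ψ) :
      IsForward (φ.imp ψ)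
  | all {n : ℕ} {φ : L.BoundedFormula Empty (n + 1)} (hφ : IsForward φ) : IsForward φ.all

theorem ofFn_snoc {n : ℕ} (xs : Fin n → ℕ) (a : ℕ) :
    List.ofFn (Fin.snoc xs a : Fin (n + 1) → ℕ) = List.ofFn xs ++ [a] := by
  rw [List.ofFn_succ_last]
  simp

theorem ofFn_split {m r : ℕ} (xs : Fin (m + r) → ℕ) : (List.ofFn xs).reverse =
    (List.ofFn fun i : Fin r => xs (Fin.natAdd m i)).reverse ++
      (List.ofFn fun i : Fin m => xs (Fin.castAdd r i)).reverse := by
  rw [← List.reverse_append]
  congr 1
  rw [← List.ofFn_fin_append]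
  congr 1
  funext i
  exact Fin.addCases (fun i => by simp) (fun i => by simp) i

/-- Evaluate a formula on the word without its last `r` variables. -/
def prv {L : FirstOrder.Language.{0, 0}} : ℕ → Fl L → Fl L
  | 0, φ => φ
  | r + 1, φ => .prev (prv r φ)

theorem sat_prv {L : FirstOrder.Language.{0, 0}}
    (I : Pool.Agent.H565R2.FO2.Interp L ℕ) (φ : Fl L) (r : ℕ) :
    ∀ (u w : List ℕ), u.length = r → (Sat I (prv r φ) (u ++ w) ↔ Sat I φ w) := by
  induction r with
  | zero =>
    intro u w hu
    rw [List.length_eq_zero_iff] at hu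
    subst hu; exact Iff.rfl
  | succ r ih =>
    intro u w hu
    match u, hu with
    | a :: u, hu => exact ih u w (by simpa using hu)

/-- Every formula of the fragment is evaluated by a formula on words. -/
theorem translate {L : FirstOrder.Language.{0, 0}} {n : ℕ} {φ : L.BoundedFormula Empty n}
    (h : IsForward φ) : ∃ φ' : Fl L, ∀ (S : L.Structure ℕ) (v : Empty → ℕ) (xs : Fin n → ℕ),
      (@FirstOrder.Language.BoundedFormula.Realize L ℕ S Empty n φ v xs ↔
        Sat (rel S) φ' (List.ofFn xs).reverse) := by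
  induction h with
  | falsum => exact ⟨.bot, fun S v xs => Iff.rfl⟩
  | equal m r =>
    refine ⟨prv r .eq, fun S v xs => ?_⟩
    rw [ofFn_split xs, sat_prv _ _ _ _ _ (by simp), ofFn_split]
    simp only [FirstOrder.Language.BoundedFormula.Realize, FirstOrder.Language.Term.realize,
      Sum.elim_inr, Sat]
    constructor
    · intro h
      refine ⟨xs (Fin.castAdd r (Fin.natAdd m 0)),
        (List.ofFn fun i : Fin m => xs (Fin.castAdd r (Fin.castAdd 2 i))).reverse, ?_⟩
      simp [h]
    · rintro ⟨a, u, h⟩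
      simp at h
      rw [h.1, h.2.1]
  | @rel m k R r =>
    refine ⟨prv r (.rel R), fun S v xs => ?_⟩
    rw [ofFn_split xs, sat_prv _ _ _ _ _ (by simp), ofFn_split, sat_rel_iff]
    simp only [FirstOrder.Language.BoundedFormula.Realize, FirstOrder.Language.Term.realize,
      Sum.elim_inr]
    exact Iff.rfl
  | imp _ _ h1 h2 =>
    obtain ⟨φ', h1⟩ := h1
    obtain ⟨ψ', h2⟩ := h2
    refine ⟨.imp φ' ψ', fun S v xs => ?_⟩
    simp only [FirstOrder.Language.BoundedFormula.Realize, Sat, h1, h2]
  | all _ h1 =>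
    obtain ⟨φ', h1⟩ := h1
    refine ⟨Fl.neg (.ex (Fl.neg φ')), fun S v xs => ?_⟩
    simp only [FirstOrder.Language.BoundedFormula.Realize, sat_neg, Sat, h1, ofFn_snoc,
      List.reverse_append, List.reverse_cons, List.reverse_nil, List.nil_append,
      List.singleton_append, not_exists, not_not]

theorem result : ∀ (L : FirstOrder.Language.{0, 0}), Countable L.Symbols → L.IsRelational →
    ∀ T : L.Theory,
      (∀ σ ∈ T, ∃ τ : L.Sentence, IsForward τ ∧ ∀ S : L.Structure ℕ,
        (@FirstOrder.Language.Sentence.Realize L ℕ S σ ↔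
          @FirstOrder.Language.Sentence.Realize L ℕ S τ)) →
      (∃ g : ℕ → L.Structure ℕ, ∀ S : L.Structure ℕ,
          @FirstOrder.Language.Theory.Model L ℕ S T →
            ∃ n : ℕ, Nonempty (@FirstOrder.Language.Equiv L ℕ ℕ S (g n))) ∨
      (∃ f : (ℕ → Bool) → L.Structure ℕ,
          (∀ x : ℕ → Bool, @FirstOrder.Language.Theory.Model L ℕ (f x) T) ∧
          (∀ x y : ℕ → Bool,
              Nonempty (@FirstOrder.Language.Equiv L ℕ ℕ (f x) (f y)) → x = y) ∧
          (∀ (n : ℕ) (Q : L.Relations n) (a : Fin n → ℕ),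
              IsClopen {x : ℕ → Bool | @FirstOrder.Language.Structure.RelMap L ℕ (f x) n Q a})) := by
  intro L hL hR T hT
  classical
  have hRc : ∀ n, Countable (L.Relations n) := countable_relations hL
  have hT' : ∀ σ ∈ T, ∃ φ : Fl L, ∀ S : L.Structure ℕ,
      (@FirstOrder.Language.Sentence.Realize L ℕ S σ ↔ Sat (rel S) φ []) := by
    intro σ hσ
    obtain ⟨τ, hτ, h⟩ := hT σ hσ
    obtain ⟨φ, hφ⟩ := translate hτ
    refine ⟨φ, fun S => (h S).trans ?_⟩
    have h1 := fun v xs => hφ S v xs
    simp only [List.ofFn_zero, List.reverse_nil] at h1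
    exact h1 _ _
  choose F hF using hT'
  let Φ : Set (Fl L) := {φ | ∃ σ, ∃ hσ : σ ∈ T, F σ hσ = φ}
  have hmod : ∀ S : L.Structure ℕ, code S ∈ KF Φ ↔
      @FirstOrder.Language.Theory.Model L ℕ S T := by
    intro S
    have hcode : Pool.Agent.H565R2.FO2.toI (code S) = rel S :=
      Pool.Agent.H565R2.FO2.toI_ofI _
    unfold KF
    rw [Set.mem_ofPred_eq, hcode]
    constructor
    · intro h
      exact ⟨fun σ hσ => ((hF σ hσ) S).2 (h _ ⟨σ, hσ, rfl⟩)⟩
    · rintro h _ ⟨σ, hσ, rfl⟩
      exact ((hF σ hσ) S).1 (h.realize_of_mem σ hσ)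
  rcases adapt hR (KF Φ) (main Φ) with ⟨g, hg⟩ | ⟨f, hf1, hf2, hf3⟩
  · left
    exact ⟨g, fun S h => hg S ((hmod S).2 h)⟩
  · right
    exact ⟨f, fun x => (hmod (f x)).1 (hf1 x), hf2, hf3⟩

end Pool.Agent.Results.MP_5df2c5_lc.ForwardFragment
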